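import Pool.Agent.R562.DGET

/-!
# Exact triangle: formulas with determinant gates

The input consists of the `3 n ^ 2` weights of a complete tripartite graph with three parts of `n`
vertices; the weights are integers between `- (n + 1)` and `n + 1`. The question is whether there is a
triangle of weight zero. The items of the input are the weights; the words have the length `c log₂ n`.

A formula (`Fml`) is built from real constants, arbitrary real functions of one item, and arbitrary real
functions of `w` words, where each word is a function of one item with `q = n ^ c` values, by the gates

* `pos`: is the value positive? (`1` or `0`),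
* `sym`: any fan-in, any real function of the number of positive inputs,
* `det`: the determinant of a real matrix of any order whose entries are formulas (sums and products
  are determinants of order two),
* `reg`: is the matrix over an arbitrary field `K`, of any order, whose entry `(a, b)` is `c' a b` or
  `c a b`, according to whether the formula `(a, b)` is positive or not, regular? (`1` or `0`).

The size is the number of the leaves which are not constants, plus the number of wires which lead to
gates `sym`. So constants and the orders of the matrices are free. The formula accepts if its value is
positive. Such formulas contain the nondeterministic networks of the hand-in `RealNetworks` without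
increase in size (`Pool.Agent.Y649.DG.exists_of_net`).

We show that random formulas of size at most `s` with error probability at most `1 / 3` need
`n ^ 5 ≤ 10 ^ 7 * c w ^ 3 log₂ n * s ^ 2`, that is, size of order `n ^ (5 / 2 - o(1))`, for an input of
`3 n ^ 2` numbers.

Proof. The weight of an edge `i j` between the first two parts takes one of the values `1, …, n`, and
it asks with the value `k + 1` whether the weight of the edge `j k` is `- (k + 1)`: each of these `n ^ 2`
weights can ask for `n` bits. If `r` leaves see a weight, the other parts of the formula enter the
determinants only through `O (r ^ 2)` numbers, so `2 ^ O (r ^ 2 log n)` functions of this weight arise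
when the other weights are fixed (`Pool.Agent.Y649.DG.bound`).
-/

set_option autoImplicit false

namespace Pool.Agent.Results.MP_62fbe0_lc.DeterminantGates

open Pool.Agent.TH697.Form (IsProb)
open Pool.Agent.TH697.Row (ApproximatesOn)
open Pool.Agent.Y638.RF.ZT (InRange zeroTri)
open Pool.Agent.Y649.DG (Fml)

theorem result : ∀ n c w : ℕ, 100 ≤ n → 1 ≤ c → 1 ≤ w →
    ∀ (Ω : Type) [Fintype Ω] (μ : Ω → ℝ), IsProb μ →
      ∀ (s : ℕ) (F : Ω → Fml (Fin 3 × Fin n × Fin n) (fun _ => ℤ) w (n ^ c)),
        (∀ ω, (F ω).size ≤ s) →
        ApproximatesOn μ (fun ω => (F ω).accepts) InRange zeroTri →
        (n : ℝ) ^ 5 ≤ 10 ^ 7 * c * w ^ 3 * Real.logb 2 n * s ^ 2 :=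
  fun _ _ _ hn hc hw _ _ μ hμ s F hs hF =>
    Pool.Agent.R562.DGET.bound_et hn hc hw μ hμ s F hs hF

end Pool.Agent.Results.MP_62fbe0_lc.DeterminantGates
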