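import Pool.Agent.R562.ETMain

/-!
# Exact Triangle: nondeterministic machines with slow heads which verify the absence of solutions

Here is a cubic lower bound, in a restricted model, for nondeterministic algorithms which accept
exactly the instances without a triangle of weight zero.  The input is the upper triangle of the
matrix of the pairs (edge flag, weight), row by row; the cells on and below the diagonal are blank,
and a head reads a whole cell in one step.  Nonuniform nondeterministic programs with `k` two-way
heads, which move by at most one cell in a step, with at most `2 ^ S` configurations, which accept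
the no instances (with weights of absolute value at most `8193 n ^ 3`) within `T` steps and never
accept a yes instance, satisfy `k (S + 1) (k T + n ^ 2) ^ 2 ≥ n ^ 6 / 10 ^ 8`.  So with a bounded
number of heads and with space `n ^ o(1)` they need time `n ^ (3 - o(1))`, although on random access
machines there are nondeterministic algorithms with proofs of size `n ^ (3 - c)`, `c > 0`, for the
absence of triangles of weight zero.
-/

set_option autoImplicit false

namespace Pool.Agent.Results.MP_62fbe0_lc.NondeterministicSlowHeads

open Pool.Agent.TH457.HT Pool.Agent.R562.Ht

/-- Let `P` be a nondeterministic program with `k ≥ 1` two-way heads for words of `n ^ 2` cells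
and with at most `2 ^ S` configurations.  If each instance of Exact Triangle on `n` vertices with
weights of absolute value at most `8193 n ^ 3` and without a triangle of weight zero, given by the
upper triangle of its matrix, is accepted by some computation of at most `T` steps, and if no
instance with a triangle of weight zero is accepted by any computation, then
`n ^ 6 ≤ 10 ^ 8 * k * (S + 1) * (k * T + n ^ 2) ^ 2`. -/
theorem result (n k T S : ℕ) (P : HeadProg (Bool × ℤ) (n * n) k) (hk : 1 ≤ k)
    (hS : Fintype.card P.Q * (n * n) ^ k ≤ 2 ^ S)
    (hacc : ∀ e w, ETInst n (8193 * n ^ 3) e w → ¬ ZeroTri e w → P.AcceptsIn T (upper n e w))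
    (hsound : ∀ e w, ETInst n (8193 * n ^ 3) e w → ZeroTri e w → ¬ P.Accepts (upper n e w)) :
    n ^ 6 ≤ 10 ^ 8 * (k * (S + 1) * (k * T + n ^ 2) ^ 2) :=
  et_nd n P T S hk hS (fun e w h1 h2 h3 => hsound e w h1 h3 h2) hacc

end Pool.Agent.Results.MP_62fbe0_lc.NondeterministicSlowHeads
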