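import Mathlib
import Pool.Agent.R617.RFE.ET

/-!
# Exact triangle: branching programs which test real formulas

The input consists of the `3 n ^ 2` weights of a complete tripartite graph with three parts of `n`
vertices; the weights are integers between `- (n + 1)` and `n + 1`. The question is whether there is a
triangle of weight zero. The items of the input are the single weights.

A real formula (`Fml`) is built from real constants, arbitrary real functions of one weight, and
arbitrary real functions of `w` words of length `c log₂ n`, where each word is an arbitrary function
of one weight (for `c ≥ 2` a word may be the whole weight), by sums, products, sign tests `pos` (with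
the values `0`, `1`), and gates `sym` of any fan-in whose value is an arbitrary real function of the
number of positive inputs. So it may contain threshold gates of unbounded fan-in with arbitrary real
weights, gates which test the sign of arithmetic formulas, and arbitrary symmetric gates, nested in
any way, and the intermediate values may be of any size. It accepts if its value is positive. Its size
is the number of leaves (constants are free) plus the number of wires which lead to gates `sym`. In a
branching program (`Program`) every inner node tests whether a real formula accepts; its size is the
number of inner nodes plus the sizes of all these formulas.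

We show that random branching programs of size at most `s` with error probability at most `1 / 3` need
`n ^ 3 ≤ 2100 c w ^ 2 (log₂ n) s`. Exhaustive search is a program with one inner node and of size
`6 n ^ 3 + 1`, so this is optimal up to the logarithm.

Proof. The weight of an edge `i j` between the first two parts takes one of the values `1, …, n`, and
it asks with the value `k + 1` for the bit `z k` which is stored in the weight of the edge `j k`: this
weight is `- (k + 1)` or `0`. All other edges between the first two parts have the weight `n + 1`, and
all edges between the first and the third part have the weight `0` (`Pool.Agent.Y638.RF.ZT`). We count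
the functions of the weight of `i j` which arise when the other weights are fixed: between the `r`
leaves which see this weight there are `O (r)` places at which other parts of the formulas enter, the
function of the value below such a place is affine or an affine function of a threshold test, and the
number of sign patterns is bounded by Warren's theorem (`Pool.Agent.Y638.RF.Core`). So each of the
`n ^ 2` weights is read `Ω (n / log n)` times.
-/

set_option autoImplicit false

namespace Pool.Agent.Results.MP_62fbe0_lc.RealPrograms

open Pool.Agent.TH697.Form (IsProb)
open Pool.Agent.TH697.Row (ApproximatesOn)
open Pool.Agent.Y638.RF (Program exists_program)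
open Pool.Agent.Y638.RF.ZT (InRange zeroTri)

theorem result :
    (∀ n c w : ℕ, 2048 ≤ n → 1 ≤ c → 1 ≤ w →
      ∀ (Ω : Type) [Fintype Ω] (μ : Ω → ℝ), IsProb μ →
        ∀ (s : ℕ) (B : Ω → Program (Fin 3 × Fin n × Fin n) (fun _ => ℤ) w (n ^ c) s),
          ApproximatesOn μ (fun ω => (B ω).eval) InRange zeroTri →
          (n : ℝ) ^ 3 ≤ 2100 * c * w ^ 2 * Real.logb 2 n * s) ∧
    (∀ n w q : ℕ,
      ∃ B : Program (Fin 3 × Fin n × Fin n) (fun _ => ℤ) w q (6 * n ^ 3 + 1),
        B.nodes = 1 ∧ ∀ x, B.eval x = zeroTri x) := by
  refine ⟨fun _ _ _ hn hc hw _ _ μ hμ s B hB =>
    Pool.Agent.R617.RFE.program_bound hn hc hw μ hμ s B hB, fun n w q => ?_⟩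
  obtain ⟨F, h1, h2⟩ := Pool.Agent.R617.RFE.upper n w q
  obtain ⟨B, h3, h4⟩ := exists_program F (6 * n ^ 3 + 1) (by omega)
  exact ⟨B, h3, fun x => (h4 x).trans (h2 x)⟩

end Pool.Agent.Results.MP_62fbe0_lc.RealPrograms
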