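import Pool.Agent.R562.ETMain

/-!
# Exact Triangle: randomized machines with slow heads need cubic time

The input is the upper triangle of the matrix of the pairs (edge flag, weight), row by row; the
cells on and below the diagonal are blank, and a head reads a whole cell in one step.  Randomized
nonuniform programs with `k` two-way heads, which move by at most one cell in a step, with at most
`2 ^ S` configurations and with error probability at most `1 / 20000` on both sides, which decide
Exact Triangle for weights of absolute value at most `8193 n ^ 3` within `T` steps, satisfy
`k (S + 1) (k T + n ^ 2) ^ 2 ≥ n ^ 6 / 10 ^ 8`.  So with a bounded number of heads and with space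
`n ^ o(1)` they need time `n ^ (3 - o(1))`: in this model the Exact Triangle hypothesis holds.
(Comparing all triples of vertices takes `O(n ^ 3)` steps with three heads and `O(log n)` bits.)

Proof. Let the first half of the vertices be divided into two sides of equal size; all edges between
the two sides are present and have weight zero.  A vertex `i` of the first side has the weight
`u i c` to the hub `c` (a vertex of the second half), a vertex `j` of the second side has the weight
`- u j c`.  There is a triangle of weight zero iff `u i c = u j c` for some `i`, `j`, `c`.  The rows
are divided into zones.  In a short time interval few zones are visited, so for most pairs of a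
zone `a` of the first side and a zone `b` of the second side, the computation consists of few
phases which avoid `a` or `b`.  The transcript of these phases has few bits, so there is a large
rectangle of contents of the two zones with the same computation transcript, and a large rectangle
has many pairs of contents with equal values in the same place.  All cells of a zone count in this
argument, since the comparisons at different hubs are independent; hence the bound is `n ^ 3`
instead of the bound `n ^ (5 / 2)` which follows from element distinctness with one hub.
-/

set_option autoImplicit false

namespace Pool.Agent.Results.MP_62fbe0_lc.SlowHeads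

open Pool.Agent.TH457.HT Pool.Agent.R562.Ht

open Classical in
/-- Let `p`, `P` be a random program with `k ≥ 1` two-way heads for words of `n ^ 2` cells and
with at most `2 ^ S` configurations.  If for each instance of Exact Triangle on `n` vertices with
weights of absolute value at most `8193 n ^ 3`, given by the upper triangle of its matrix, the right
answer is given within `T` steps with probability at least `1 - 1 / 20000`, then
`n ^ 6 ≤ 10 ^ 8 * k * (S + 1) * (k * T + n ^ 2) ^ 2`. -/
theorem result (n k T S : ℕ) (Ω : Type) [Fintype Ω] (p : Ω → ℝ)
    (P : Ω → DetProg (Bool × ℤ) (n * n) k)
    (hp : ∀ ω, 0 ≤ p ω) (hp1 : ∑ ω, p ω = 1) (hk : 1 ≤ k)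
    (hS : ∀ ω, Fintype.card (P ω).Q * (n * n) ^ k ≤ 2 ^ S)
    (h : ∀ e w, ETInst n (8193 * n ^ 3) e w →
      1 - 1 / 20000 ≤ prob p P T (upper n e w) (decide (ZeroTri e w))) :
    n ^ 6 ≤ 10 ^ 8 * (k * (S + 1) * (k * T + n ^ 2) ^ 2) :=
  et_rand n p hp hp1 P T S hk hS h

end Pool.Agent.Results.MP_62fbe0_lc.SlowHeads
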